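import Pool.Agent.H89.SP.LR

set_option autoImplicit false

namespace Pool.Agent.H89.SP.L.DECO

open Pool.Agent.H89.SP Matrix Polynomial LB

/-- the statement with an arbitrary finite index type of components -/
def Dec (ι : Type) [Fintype ι] [DecidableEq ι] (Q : ι → ι → Bool) : Prop :=
  ∃ (K : Type) (_ : Fintype K) (b : K → ℕ) (R : ∀ l, Fin (b l) → Fin (b l) → Bool),
    (∀ l, 1 ≤ b l) ∧ (∀ l, Strong (R l)) ∧ ∑ l, b l = Fintype.card ι ∧ ∑ l, arcs (R l) ≤ arcs Q ∧
    ∀ (F : Type) [Field F] (A : Matrix ι ι F), Exact Q A →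
      ∃ B : ∀ l, Matrix (Fin (b l)) (Fin (b l)) F, (∀ l, Exact (R l) (B l)) ∧
        A.charpoly = ∏ l, (B l).charpoly

lemma arcs_split {ι : Type} [Fintype ι] [DecidableEq ι] (Q : ι → ι → Bool) (p : ι → Prop)
    [DecidablePred p] :
    arcs (fun a b : {v // p v} => Q a.1 b.1) + arcs (fun a b : {v // ¬ p v} => Q a.1 b.1) ≤
      arcs Q := by
  classical
  unfold arcs
  have h1 : ∀ (q : ι → Prop) [DecidablePred q],
      (Finset.univ.filter (fun ij : {v // q v} × {v // q v} => Q ij.1.1 ij.2.1 = true)).card =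
      ((Finset.univ.filter (fun ij : {v // q v} × {v // q v} => Q ij.1.1 ij.2.1 = true)).image
        (fun ij => (ij.1.1, ij.2.1))).card := by
    intro q _
    rw [Finset.card_image_of_injective]
    rintro ⟨⟨a, ha⟩, ⟨b, hb⟩⟩ ⟨⟨c, hc⟩, ⟨d, hd⟩⟩ h
    simp only [Prod.mk.injEq] at h
    obtain ⟨rfl, rfl⟩ := h
    rfl
  rw [h1 p, h1 (fun v => ¬ p v), ← Finset.card_union_of_disjoint]
  · apply Finset.card_le_card
    intro x hx
    rw [Finset.mem_union, Finset.mem_image, Finset.mem_image] at hx
    rw [Finset.mem_filter]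
    rcases hx with ⟨y, hy, rfl⟩ | ⟨y, hy, rfl⟩
    · exact ⟨Finset.mem_univ _, (Finset.mem_filter.1 hy).2⟩
    · exact ⟨Finset.mem_univ _, (Finset.mem_filter.1 hy).2⟩
  · rw [Finset.disjoint_left]
    intro x hx hx'
    rw [Finset.mem_image] at hx hx'
    obtain ⟨y, -, rfl⟩ := hx
    obtain ⟨z, -, hz⟩ := hx'
    have e := (Prod.mk.injEq _ _ _ _ ▸ hz : z.1.1 = y.1.1 ∧ z.2.1 = y.2.1).1
    exact z.1.2 (e ▸ y.1.2)

lemma charpoly_split {F ι : Type} [Field F] [Fintype ι] [DecidableEq ι] (A : Matrix ι ι F)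
    (p : ι → Prop) [DecidablePred p] (h : ∀ i j, p i → ¬ p j → A i j = 0)
    (h1 : ∃ i, p i) (h2 : ∃ i, ¬ p i) :
    A.charpoly = (A.submatrix (fun i : {v // p v} => i.1) (fun i : {v // p v} => i.1)).charpoly *
      (A.submatrix (fun i : {v // ¬ p v} => i.1) (fun i : {v // ¬ p v} => i.1)).charpoly := by
  classical
  let b : ι → ℕ := fun i => if p i then 1 else 0
  have hb1 : ∀ i, b i = 1 ↔ p i := by
    intro i
    show (if p i then 1 else 0) = 1 ↔ _
    by_cases h : p i <;> simp [h]
  have hb0 : ∀ i, b i = 0 ↔ ¬ p i := by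
    intro i
    show (if p i then 1 else 0) = 0 ↔ _
    by_cases h : p i <;> simp [h]
  have hT : A.BlockTriangular b := by
    intro i j hij
    by_cases hi : p i
    · by_cases hj : p j
      · rw [(hb1 i).2 hi, (hb1 j).2 hj] at hij
        omega
      · exact h i j hi hj
    · rw [(hb0 i).2 hi] at hij
      omega
  rw [hT.charpoly]
  have himg : Finset.univ.image b = {1, 0} := by
    ext x
    simp only [Finset.mem_image, Finset.mem_univ, true_and, Finset.mem_insert,
      Finset.mem_singleton]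
    constructor
    · rintro ⟨i, rfl⟩
      by_cases hi : p i
      · exact Or.inl ((hb1 i).2 hi)
      · exact Or.inr ((hb0 i).2 hi)
    · rintro (rfl | rfl)
      · obtain ⟨i, hi⟩ := h1
        exact ⟨i, (hb1 i).2 hi⟩
      · obtain ⟨i, hi⟩ := h2
        exact ⟨i, (hb0 i).2 hi⟩
  rw [himg, Finset.prod_pair (by norm_num)]
  let e1 : {v // p v} ≃ {i // b i = 1} := Equiv.subtypeEquivRight fun i => (hb1 i).symm
  let e0 : {v // ¬ p v} ≃ {i // b i = 0} := Equiv.subtypeEquivRight fun i => (hb0 i).symm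
  have h5 : A.toSquareBlock b 1 = Matrix.reindex e1 e1
      (A.submatrix (fun i : {v // p v} => i.1) (fun i : {v // p v} => i.1)) := by
    ext i j
    rfl
  have h6 : A.toSquareBlock b 0 = Matrix.reindex e0 e0
      (A.submatrix (fun i : {v // ¬ p v} => i.1) (fun i : {v // ¬ p v} => i.1)) := by
    ext i j
    rfl
  rw [h5, h6, Matrix.charpoly_reindex, Matrix.charpoly_reindex]

lemma dec_empty {ι : Type} [Fintype ι] [DecidableEq ι] (Q : ι → ι → Bool) [IsEmpty ι] :
    Dec ι Q := by
  refine ⟨Empty, inferInstance, fun x => x.elim, fun x => x.elim, fun x => x.elim,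
    fun x => x.elim, ?_, ?_, ?_⟩
  · simp
  · simp
  · intro F _ A _
    refine ⟨fun x => x.elim, fun x => x.elim, ?_⟩
    rw [Finset.univ_eq_empty, Finset.prod_empty]
    unfold Matrix.charpoly
    exact Matrix.det_isEmpty

lemma dec_strong {ι : Type} [Fintype ι] [DecidableEq ι] (Q : ι → ι → Bool) (hne : Nonempty ι)
    (hS : Strong Q) : Dec ι Q := by
  classical
  let e : ι ≃ Fin (Fintype.card ι) := Fintype.equivFin ι
  refine ⟨Unit, inferInstance, fun _ => Fintype.card ι, fun _ i j => Q (e.symm i) (e.symm j),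
    fun _ => Fintype.card_pos, ?_, ?_, ?_, ?_⟩
  · intro _ i j
    have h := hS (e.symm i) (e.symm j)
    have h2 : Reach (fun i j => Q (e.symm i) (e.symm j)) (e (e.symm i)) (e (e.symm j)) := by
      refine Relation.ReflTransGen.lift e ?_ _ _ h
      intro a c hac
      show Q (e.symm (e a)) (e.symm (e c)) = true
      rw [e.symm_apply_apply, e.symm_apply_apply]
      exact hac
    rwa [e.apply_symm_apply, e.apply_symm_apply] at h2
  · simp
  · rw [Finset.univ_unique, Finset.sum_singleton]
    unfold arcs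
    apply le_of_eq
    refine Finset.card_bij (fun ij _ => (e.symm ij.1, e.symm ij.2)) ?_ ?_ ?_
    · intro x hx
      rw [Finset.mem_filter] at hx ⊢
      exact ⟨Finset.mem_univ _, hx.2⟩
    · intro x _ y _ hxy
      simp only [Prod.mk.injEq, EmbeddingLike.apply_eq_iff_eq] at hxy
      exact Prod.ext hxy.1 hxy.2
    · intro y hy
      rw [Finset.mem_filter] at hy
      refine ⟨(e y.1, e y.2), ?_, ?_⟩
      · rw [Finset.mem_filter]
        refine ⟨Finset.mem_univ _, ?_⟩
        show Q (e.symm (e y.1)) (e.symm (e y.2)) = true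
        rw [e.symm_apply_apply, e.symm_apply_apply]
        exact hy.2
      · simp
  · intro F _ A hA
    refine ⟨fun _ => Matrix.reindex e e A, ?_, ?_⟩
    · intro _ i j
      exact hA (e.symm i) (e.symm j)
    · rw [Finset.univ_unique, Finset.prod_singleton, Matrix.charpoly_reindex]

lemma dec_aux (n : ℕ) : ∀ (ι : Type) [Fintype ι] [DecidableEq ι] (Q : ι → ι → Bool),
    Fintype.card ι = n → Dec ι Q := by
  induction n using Nat.strong_induction_on with
  | _ n ih =>
  intro ι _ _ Q hn
  classical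
  by_cases hne : Nonempty ι
  · by_cases hS : Strong Q
    · exact dec_strong Q hne hS
    · unfold Strong at hS
      push Not at hS
      obtain ⟨i, j, hij⟩ := hS
      let p : ι → Prop := fun v => Reach Q i v
      have hpi : p i := Relation.ReflTransGen.refl
      have hpj : ¬ p j := hij
      have hcard : Fintype.card {v // p v} + Fintype.card {v // ¬ p v} = Fintype.card ι := by
        rw [Fintype.card_subtype_compl]
        have := Fintype.card_subtype_le p
        omega
      have hU : 0 < Fintype.card {v // p v} := Fintype.card_pos_iff.2 ⟨⟨i, hpi⟩⟩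
      have hW : 0 < Fintype.card {v // ¬ p v} := Fintype.card_pos_iff.2 ⟨⟨j, hpj⟩⟩
      obtain ⟨K1, _, b1, R1, hb1, hR1, hs1, ha1, hF1⟩ :=
        ih (Fintype.card {v // p v}) (by omega) {v // p v} (fun a b => Q a.1 b.1) rfl
      obtain ⟨K2, _, b2, R2, hb2, hR2, hs2, ha2, hF2⟩ :=
        ih (Fintype.card {v // ¬ p v}) (by omega) {v // ¬ p v} (fun a b => Q a.1 b.1) rfl
      refine ⟨K1 ⊕ K2, inferInstance, Sum.elim b1 b2,
        fun l => match l with | Sum.inl x => R1 x | Sum.inr x => R2 x, ?_, ?_, ?_, ?_, ?_⟩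
      · rintro (x | x)
        · exact hb1 x
        · exact hb2 x
      · rintro (x | x)
        · exact hR1 x
        · exact hR2 x
      · rw [Fintype.sum_sum_type]
        simp only [Sum.elim_inl, Sum.elim_inr]
        rw [hs1, hs2, hcard]
      · rw [Fintype.sum_sum_type]
        refine le_trans ?_ (arcs_split Q p)
        exact add_le_add ha1 ha2
      · intro F _ A hA
        obtain ⟨B1, hB1, hc1⟩ := hF1 F
          (A.submatrix (fun i : {v // p v} => i.1) (fun i : {v // p v} => i.1))
          (fun a b => hA a.1 b.1)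
        obtain ⟨B2, hB2, hc2⟩ := hF2 F
          (A.submatrix (fun i : {v // ¬ p v} => i.1) (fun i : {v // ¬ p v} => i.1))
          (fun a b => hA a.1 b.1)
        refine ⟨fun l => match l with | Sum.inl x => B1 x | Sum.inr x => B2 x, ?_, ?_⟩
        · rintro (x | x)
          · exact hB1 x
          · exact hB2 x
        · rw [Fintype.prod_sum_type]
          have hz : ∀ a c, p a → ¬ p c → A a c = 0 := by
            intro a c ha hc
            by_contra hne
            have hQ := (hA a c).1 hne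
            exact hc (Relation.ReflTransGen.tail ha hQ)
          rw [charpoly_split A p hz ⟨i, hpi⟩ ⟨j, hpj⟩, hc1, hc2]
          rfl
  · have : IsEmpty ι := not_nonempty_iff.1 hne
    exact dec_empty Q

theorem main : LR.S_DECO := by
  intro ι _ _ Q
  classical
  obtain ⟨K, _, b, R, hb, hR, hs, ha, hF⟩ := dec_aux (Fintype.card ι) ι Q rfl
  let e : K ≃ Fin (Fintype.card K) := Fintype.equivFin K
  refine ⟨Fintype.card K, fun l => b (e.symm l), fun l => R (e.symm l), fun l => hb _,
    fun l => hR _, ?_, ?_, ?_⟩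
  · rw [← hs]
    exact Equiv.sum_comp e.symm b
  · refine le_trans (le_of_eq ?_) ha
    exact Equiv.sum_comp e.symm (fun l => arcs (R l))
  · intro F _ A hA
    obtain ⟨B, hB, hc⟩ := hF F A hA
    refine ⟨fun l => B (e.symm l), fun l => hB _, ?_⟩
    rw [hc]
    exact (Equiv.prod_comp e.symm (fun l => (B l).charpoly)).symm

end Pool.Agent.H89.SP.L.DECO
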