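import Pool.Agent.H89.SP.LB

set_option autoImplicit false

namespace Pool.Agent.H89.SP.L.ALG

open Polynomial Matrix Pool.Agent.H89.SP

/-- composition of evaluations -/
theorem eval_aeval {F σ τ : Type} [Field F] (ε : τ → F) (x : σ → MvPolynomial τ F)
    (G : MvPolynomial σ F) : MvPolynomial.eval ε (MvPolynomial.aeval x G) =
      MvPolynomial.eval (fun k => MvPolynomial.eval ε (x k)) G := by
  induction G using MvPolynomial.induction_on with
  | C a => simp [MvPolynomial.algebraMap_eq]
  | add p q hp hq => simp only [map_add, hp, hq]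
  | mul_X p i hp => rw [map_mul, map_mul, hp, MvPolynomial.aeval_X, map_mul, MvPolynomial.eval_X]

theorem main : LB.S_ALG := by
  intro htree F ι _ _ _ Q hQ hb harcs
  classical
  obtain ⟨r⟩ : Nonempty ι := Fintype.card_pos_iff.mp (by omega)
  obtain ⟨par, hpar, hB⟩ := htree F ι Q r hQ
  -- the free arcs
  let E : Type := {ij : ι × ι // Q ij.1 ij.2 = true ∧ ¬ (ij.1 ≠ r ∧ ij.2 = par ij.1)}
  have hcardE : Fintype.card E < Fintype.card ι := by
    have h1 : Fintype.card E = (Finset.univ.filter (fun ij : ι × ι => Q ij.1 ij.2 = true ∧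
        ¬ (ij.1 ≠ r ∧ ij.2 = par ij.1))).card := Fintype.card_subtype _
    have h2 : (Finset.univ.filter (fun ij : ι × ι => Q ij.1 ij.2 = true ∧
        (ij.1 ≠ r ∧ ij.2 = par ij.1))).card + (Finset.univ.filter (fun ij : ι × ι =>
        Q ij.1 ij.2 = true ∧ ¬ (ij.1 ≠ r ∧ ij.2 = par ij.1))).card = LB.arcs Q := by
      unfold LB.arcs
      have := Finset.card_filter_add_card_filter_not
        (s := Finset.univ.filter (fun ij : ι × ι => Q ij.1 ij.2 = true))
        (fun ij : ι × ι => ij.1 ≠ r ∧ ij.2 = par ij.1)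
      rw [Finset.filter_filter, Finset.filter_filter] at this
      exact this
    have h3 : Fintype.card ι - 1 ≤ (Finset.univ.filter (fun ij : ι × ι => Q ij.1 ij.2 = true ∧
        (ij.1 ≠ r ∧ ij.2 = par ij.1))).card := by
      have : Fintype.card ι - 1 = (Finset.univ.erase r : Finset ι).card := by
        rw [Finset.card_erase_of_mem (Finset.mem_univ r), Finset.card_univ]
      rw [this]
      apply Finset.card_le_card_of_injOn (fun v => (v, par v))
      · intro v hv
        have hv' : v ≠ r := (Finset.mem_erase.mp hv).1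
        simp only [Finset.coe_filter, Finset.mem_univ, true_and, Set.mem_ofPred_eq, and_true]
        exact ⟨hpar v hv', hv'⟩
      · intro v _ w _ h
        exact (Prod.mk.inj h).1
    omega
  let M : Matrix ι ι (MvPolynomial E F) := fun i j =>
    if h : Q i j = true ∧ ¬ (i ≠ r ∧ j = par i) then MvPolynomial.X (⟨(i, j), h⟩ : E)
    else if i ≠ r ∧ j = par i then 1 else 0
  let x : Fin (Fintype.card ι) → MvPolynomial E F := fun k => M.charpoly.coeff k
  have hnot : ¬ AlgebraicIndependent F x := by
    intro h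
    have h1 := h.cardinalMk_le_trdeg
    rw [MvPolynomial.trdeg_of_isDomain] at h1
    simp at h1
    omega
  rw [algebraicIndependent_iff] at hnot
  push Not at hnot
  obtain ⟨G, hG0, hG⟩ := hnot
  refine ⟨G, hG, ?_⟩
  intro B hBe
  obtain ⟨B', hBe', hchar, hone⟩ := hB B hBe
  let ε : E → F := fun e => B' e.1.1 e.1.2
  have hmap : B' = M.map (MvPolynomial.eval ε) := by
    ext i j
    rw [Matrix.map_apply]
    by_cases h : Q i j = true ∧ ¬ (i ≠ r ∧ j = par i)
    · simp only [M, dif_pos h, MvPolynomial.eval_X, ε]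
    · by_cases h2 : i ≠ r ∧ j = par i
      · simp only [M, dif_neg h, if_pos h2, map_one]
        rw [h2.2]; exact hone i h2.1
      · simp only [M, dif_neg h, if_neg h2, map_zero]
        by_contra h3
        exact h ⟨(hBe' i j).mp h3, h2⟩
  have hcoef : ∀ k : Fin (Fintype.card ι), B.charpoly.coeff k = MvPolynomial.eval ε (x k) := by
    intro k
    rw [← hchar, hmap, Matrix.charpoly_map, Polynomial.coeff_map]
  have : (fun k : Fin (Fintype.card ι) => B.charpoly.coeff k.val) =
      fun k => MvPolynomial.eval ε (x k) := funext hcoef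
  rw [this, ← eval_aeval, hG0, map_zero]

end Pool.Agent.H89.SP.L.ALG
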