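import Pool.Agent.H89.SP.LB

set_option autoImplicit false

namespace Pool.Agent.H89.SP.L.CON

open Pool.Agent.H89.SP

theorem aux {ι : Type} (Q : ι → ι → Bool) (c b : ι) (hb : LB.Reach Q c b ∧ LB.Reach Q b c) (a : ι)
    (h : LB.Reach Q a b) : ∀ ha : LB.Reach Q c a ∧ LB.Reach Q a c,
      LB.Reach (LB.compQ Q c) (⟨a, ha⟩ : LB.Comp Q c) (⟨b, hb⟩ : LB.Comp Q c) := by
  refine Relation.ReflTransGen.head_induction_on (motive := fun a _ =>
    ∀ ha : LB.Reach Q c a ∧ LB.Reach Q a c,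
      LB.Reach (LB.compQ Q c) (⟨a, ha⟩ : LB.Comp Q c) (⟨b, hb⟩ : LB.Comp Q c)) h ?_ ?_
  · intro ha
    exact Relation.ReflTransGen.refl
  · intro a a' haa' ha'b ih ha
    have ha' : LB.Reach Q c a' ∧ LB.Reach Q a' c :=
      ⟨Relation.ReflTransGen.tail ha.1 haa', Relation.ReflTransGen.trans ha'b hb.2⟩
    exact Relation.ReflTransGen.head
      (show LB.compQ Q c (⟨a, ha⟩ : LB.Comp Q c) (⟨a', ha'⟩ : LB.Comp Q c) = true from haa') (ih ha')

theorem main : LB.S_CON := by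
  intro ι Q c i j
  exact aux Q c j.1 j.2 i.1 (Relation.ReflTransGen.trans i.2.2 j.2.1) i.2

end Pool.Agent.H89.SP.L.CON
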