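import Pool.Agent.H89.SP.LB

set_option autoImplicit false

namespace Pool.Agent.H89.SP.L.DIV

open Pool.Agent.H89.SP Matrix Polynomial

theorem main : LB.S_DIV := by
  intro F ι _ _ _ Q c A hA
  classical
  let b : ι → ℕ := fun i => if LB.Reach Q c i then (if LB.Reach Q i c then 1 else 2) else 0
  have hb1 : ∀ i, b i = 1 ↔ (LB.Reach Q c i ∧ LB.Reach Q i c) := by
    intro i
    show (if LB.Reach Q c i then (if LB.Reach Q i c then 1 else 2) else 0) = 1 ↔ _
    by_cases h1 : LB.Reach Q c i
    · by_cases h2 : LB.Reach Q i c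
      · simp [h1, h2]
      · simp [h1, h2]
    · simp [h1]
  have hA0 : ∀ i j, b j < b i → A i j = 0 := by
    intro i j hij
    by_contra hne
    have hQ := (hA i j).1 hne
    by_cases h1 : LB.Reach Q c i
    · have h2 : LB.Reach Q c j := Relation.ReflTransGen.tail h1 hQ
      by_cases h3 : LB.Reach Q j c
      · have h4 : LB.Reach Q i c := Relation.ReflTransGen.head hQ h3
        have e1 := (hb1 i).2 ⟨h1, h4⟩
        have e2 := (hb1 j).2 ⟨h2, h3⟩
        omega
      · have e2 : b j = 2 := by
          show (if LB.Reach Q c j then (if LB.Reach Q j c then 1 else 2) else 0) = 2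
          simp [h2, h3]
        have e1 : b i ≤ 2 := by
          show (if LB.Reach Q c i then (if LB.Reach Q i c then 1 else 2) else 0) ≤ 2
          split_ifs <;> norm_num
        omega
    · have e1 : b i = 0 := by
        show (if LB.Reach Q c i then (if LB.Reach Q i c then 1 else 2) else 0) = 0
        simp [h1]
      omega
  have hT : A.BlockTriangular b := fun i j hij => hA0 i j hij
  rw [hT.charpoly]
  have hc : b c = 1 := (hb1 c).2 ⟨Relation.ReflTransGen.refl, Relation.ReflTransGen.refl⟩
  have hdiv : (A.toSquareBlock b 1).charpoly ∣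
      ∏ a ∈ Finset.univ.image b, (A.toSquareBlock b a).charpoly :=
    Finset.dvd_prod_of_mem (fun a => (A.toSquareBlock b a).charpoly)
      (Finset.mem_image.2 ⟨c, Finset.mem_univ _, hc⟩)
  refine Dvd.dvd.trans (dvd_of_eq ?_) hdiv
  let e : LB.Comp Q c ≃ {i // b i = 1} := Equiv.subtypeEquivRight fun i => (hb1 i).symm
  have h5 : A.toSquareBlock b 1 = Matrix.reindex e e
      (A.submatrix (fun i : LB.Comp Q c => i.1) (fun i : LB.Comp Q c => i.1)) := by
    ext i j
    rfl
  rw [h5, Matrix.charpoly_reindex]

end Pool.Agent.H89.SP.L.DIV
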