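import Pool.Agent.H89.SP.LR

/-!
# Strong patterns of order four with seven arcs (stub SPL-FOUR)
-/

set_option autoImplicit false

namespace Pool.Agent.H89.SP.L.FOUR

open Polynomial Matrix Pool.Agent.H89.SP.LB Pool.Agent.H89.SP.LR

/-! ### the finite check -/

/-- row and column of the position `k`; the last two positions are the loops `2`, `3` -/
def rr : ℕ → Fin 4
  | 0 => 0 | 1 => 0 | 2 => 0 | 3 => 0 | 4 => 1 | 5 => 1 | 6 => 1 | 7 => 1
  | 8 => 2 | 9 => 2 | 10 => 2 | 11 => 3 | 12 => 3 | 13 => 3 | 14 => 2 | _ => 3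
def cc : ℕ → Fin 4
  | 0 => 0 | 1 => 1 | 2 => 2 | 3 => 3 | 4 => 0 | 5 => 1 | 6 => 2 | 7 => 3
  | 8 => 0 | 9 => 1 | 10 => 3 | 11 => 0 | 12 => 1 | 13 => 2 | 14 => 2 | _ => 3
def ix : Fin 4 → Fin 4 → ℕ
  | 0, 0 => 0 | 0, 1 => 1 | 0, 2 => 2 | 0, 3 => 3
  | 1, 0 => 4 | 1, 1 => 5 | 1, 2 => 6 | 1, 3 => 7
  | 2, 0 => 8 | 2, 1 => 9 | 2, 2 => 14 | 2, 3 => 10
  | 3, 0 => 11 | 3, 1 => 12 | 3, 2 => 13 | 3, 3 => 15

theorem rc (i j : Fin 4) : rr (ix i j) = i ∧ cc (ix i j) = j ∧ ix i j < 16 := by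
  revert i j; decide

/-- the pattern of a mask -/
def qm (m : ℕ) (i j : Fin 4) : Bool := m.testBit (ix i j)

def cuts : List (ℕ × List (Fin 4 × Fin 4)) :=
  [(1, [(0, 1), (0, 2), (0, 3)]), (2, [(1, 0), (1, 2), (1, 3)]), (4, [(2, 0), (2, 1), (2, 3)]),
    (8, [(3, 0), (3, 1), (3, 2)]), (14, [(1, 0), (2, 0), (3, 0)]), (13, [(0, 1), (2, 1), (3, 1)]),
    (11, [(0, 2), (1, 2), (3, 2)]), (7, [(0, 3), (1, 3), (2, 3)]),
    (3, [(0, 2), (0, 3), (1, 2), (1, 3)]), (12, [(2, 0), (3, 0), (2, 1), (3, 1)]),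
    (5, [(0, 1), (0, 3), (2, 1), (2, 3)]), (10, [(1, 0), (3, 0), (1, 2), (3, 2)]),
    (9, [(0, 1), (0, 2), (3, 1), (3, 2)]), (6, [(1, 0), (2, 0), (1, 3), (2, 3)])]

theorem cuts_ok : ∀ x ∈ cuts, (∃ i : Fin 4, x.1.testBit i = true) ∧
    (∃ i : Fin 4, x.1.testBit i = false) ∧
    ∀ i j : Fin 4, x.1.testBit i = true → x.1.testBit j = false → (i, j) ∈ x.2 := by
  decide

def twos : List (Fin 4 × Fin 4) := [(0, 1), (0, 2), (0, 3), (1, 2), (1, 3), (2, 3)]

def perms : List (Fin 4 × Fin 4 × Fin 4 × Fin 4) :=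
  [(0, 1, 2, 3), (0, 1, 3, 2), (0, 2, 1, 3), (0, 2, 3, 1), (0, 3, 1, 2), (0, 3, 2, 1),
    (1, 0, 2, 3), (1, 0, 3, 2), (1, 2, 0, 3), (1, 2, 3, 0), (1, 3, 0, 2), (1, 3, 2, 0),
    (2, 0, 1, 3), (2, 0, 3, 1), (2, 1, 0, 3), (2, 1, 3, 0), (2, 3, 0, 1), (2, 3, 1, 0),
    (3, 0, 1, 2), (3, 0, 2, 1), (3, 1, 0, 2), (3, 1, 2, 0), (3, 2, 0, 1), (3, 2, 1, 0)]

theorem perms_ok : ∀ σ : Equiv.Perm (Fin 4), (σ 0, σ 1, σ 2, σ 3) ∈ perms := by
  decide

/-- the four exceptional patterns -/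
def P4 : List ℕ := [
  2 ^ 1 + 2 ^ 4 + 2 ^ 6 + 2 ^ 10 + 2 ^ 11 + 2 ^ 14 + 2 ^ 15,
  2 ^ 1 + 2 ^ 4 + 2 ^ 2 + 2 ^ 10 + 2 ^ 12 + 2 ^ 14 + 2 ^ 15,
  2 ^ 1 + 2 ^ 4 + 2 ^ 7 + 2 ^ 13 + 2 ^ 8 + 2 ^ 14 + 2 ^ 15,
  2 ^ 1 + 2 ^ 4 + 2 ^ 3 + 2 ^ 13 + 2 ^ 9 + 2 ^ 14 + 2 ^ 15]

def chk (m : ℕ) : Bool :=
  !(cuts.all fun x => x.2.any fun ij => qm m ij.1 ij.2) ||
  (!(twos.any fun ij => qm m ij.1 ij.2 && qm m ij.2 ij.1) ||
  ((perms.filter fun s => qm m s.1 0 && (qm m s.2.1 1 && (qm m s.2.2.1 2 && qm m s.2.2.2 3))).length.ble 1 ||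
  P4.any fun c => m.beq c))

def allc : ℕ → ℕ → ℕ → Bool
  | _, 0, acc => chk acc
  | 0, _ + 1, _ => true
  | k + 1, c + 1, acc => allc k (c + 1) acc && allc k c (acc + 2 ^ k)

set_option maxRecDepth 100000 in
theorem allc_true : allc 14 5 (2 ^ 14 + 2 ^ 15) = true := by
  decide +kernel


theorem allc_spec : ∀ (k c acc : ℕ), allc k c acc = true → ∀ f : ℕ → Bool,
    (∑ i ∈ Finset.range k, (if f i = true then 1 else 0)) = c →
    chk (acc + ∑ i ∈ Finset.range k, if f i = true then 2 ^ i else 0) = true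
  | k, 0, acc, h, f, hf => by
    have h0 : ∑ i ∈ Finset.range k, (if f i = true then 2 ^ i else 0) = 0 := by
      apply Finset.sum_eq_zero
      intro i hi
      have := (Finset.sum_eq_zero_iff.1 hf) i hi
      by_cases hfi : f i = true
      · simp [hfi] at this
      · simp [hfi]
    rw [h0, add_zero]
    cases k <;> exact h
  | 0, c + 1, acc, h, f, hf => by simp at hf
  | k + 1, c + 1, acc, h, f, hf => by
    rw [allc, Bool.and_eq_true] at h
    rw [Finset.sum_range_succ] at hf ⊢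
    by_cases hk : f k = true
    · rw [if_pos hk] at hf ⊢
      have := allc_spec k c (acc + 2 ^ k) h.2 f (by omega)
      rw [← add_assoc, add_right_comm]
      exact this
    · rw [if_neg hk] at hf ⊢
      exact allc_spec k (c + 1) acc h.1 f (by omega)

theorem sum_bits (f : ℕ → Bool) : ∀ n : ℕ,
    (∑ i ∈ Finset.range n, (if f i = true then 2 ^ i else 0)) < 2 ^ n ∧
    ∀ j < n, (∑ i ∈ Finset.range n, (if f i = true then 2 ^ i else 0)).testBit j = f j
  | 0 => by simp
  | n + 1 => by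
    obtain ⟨h1, h2⟩ := sum_bits f n
    rw [Finset.sum_range_succ]
    by_cases hn : f n = true
    · rw [if_pos hn]
      refine ⟨by rw [pow_succ]; omega, fun j hj => ?_⟩
      rw [add_comm]
      rcases Nat.lt_succ_iff_lt_or_eq.1 hj with h | h
      · rw [Nat.testBit_two_pow_add_gt h]
        exact h2 j h
      · subst h
        rw [Nat.testBit_two_pow_add_eq, Nat.testBit_lt_two_pow h1, hn]
        rfl
    · rw [if_neg hn, add_zero]
      refine ⟨by rw [pow_succ]; omega, fun j hj => ?_⟩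
      rcases Nat.lt_succ_iff_lt_or_eq.1 hj with h | h
      · exact h2 j h
      · subst h
        rw [Nat.testBit_lt_two_pow h1]
        simpa using hn

def msk (Q : Fin 4 → Fin 4 → Bool) : ℕ :=
  ∑ i ∈ Finset.range 16, if Q (rr i) (cc i) = true then 2 ^ i else 0

theorem qm_msk (Q : Fin 4 → Fin 4 → Bool) (i j : Fin 4) : qm (msk Q) i j = Q i j := by
  unfold qm msk
  rw [(sum_bits (fun k => Q (rr k) (cc k)) 16).2 _ (rc i j).2.2, (rc i j).1, (rc i j).2.1]

theorem arcs_eq (Q : Fin 4 → Fin 4 → Bool) :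
    arcs Q = ∑ i ∈ Finset.range 16, (if Q (rr i) (cc i) = true then 1 else 0) := by
  unfold arcs
  rw [Finset.card_filter, Fintype.sum_prod_type]
  simp only [Fin.sum_univ_four, Finset.sum_range_succ, Finset.sum_range_zero, rr, cc]
  ring

theorem chk_Q (Q : Fin 4 → Fin 4 → Bool) (h2 : Q 2 2 = true) (h3 : Q 3 3 = true)
    (hQ : arcs Q = 7) : chk (msk Q) = true := by
  rw [arcs_eq, Finset.sum_range_succ, Finset.sum_range_succ] at hQ
  have e14 : Q (rr 14) (cc 14) = true := h2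
  have e15 : Q (rr 15) (cc 15) = true := h3
  rw [if_pos e14, if_pos e15] at hQ
  have h := allc_spec 14 5 (2 ^ 14 + 2 ^ 15) allc_true (fun k => Q (rr k) (cc k)) (by omega)
  unfold msk
  rw [Finset.sum_range_succ, Finset.sum_range_succ, if_pos e14, if_pos e15]
  rw [add_comm, ← add_assoc] at h
  exact h

/-- an arc across every cut -/
theorem strong_cut {Q : Fin 4 → Fin 4 → Bool} (hQ : Strong Q) (U : Fin 4 → Bool) {a b : Fin 4}
    (ha : U a = true) (hb : U b = false) : ∃ i j, U i = true ∧ U j = false ∧ Q i j = true := by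
  by_contra hcon
  push Not at hcon
  have h : ∀ c, Reach Q a c → U c = true := by
    intro c hc
    induction hc with
    | refl => exact ha
    | tail _ h1 h2 =>
      by_contra h3
      exact hcon _ _ h2 (by simpa using h3) h1
  have := h b (hQ a b)
  rw [hb] at this
  exact absurd this (by simp)

theorem cases4 (Q : Fin 4 → Fin 4 → Bool) (hQ : Strong Q) (h2 : Q 2 2 = true) (h3 : Q 3 3 = true)
    (h7 : arcs Q = 7) :
    (∀ i j, i ≠ j → Q i j = true → Q j i = true → False) ∨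
    (∀ σ τ : Equiv.Perm (Fin 4), (∀ i, Q (σ i) i = true) → (∀ i, Q (τ i) i = true) → σ = τ) ∨
    ∃ c ∈ P4, ∀ i j, Q i j = qm c i j := by
  have h := chk_Q Q h2 h3 h7
  unfold chk at h
  rw [Bool.or_eq_true, Bool.or_eq_true, Bool.or_eq_true] at h
  rcases h with h | h | h | h
  · exfalso
    rw [Bool.not_eq_true', List.all_eq_false] at h
    obtain ⟨x, hx, hx2⟩ := h
    apply hx2
    obtain ⟨⟨a, ha⟩, ⟨b, hb⟩, hx3⟩ := cuts_ok x hx
    obtain ⟨i, j, hi, hj, hij⟩ := strong_cut hQ (fun i => x.1.testBit i) ha hb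
    rw [List.any_eq_true]
    exact ⟨(i, j), hx3 i j hi hj, by simpa [qm_msk] using hij⟩
  · left
    intro i j hij h4 h5
    rw [Bool.not_eq_true', List.any_eq_false] at h
    have h6 : ∀ i j : Fin 4, i ≠ j → (i, j) ∈ twos ∨ (j, i) ∈ twos := by decide
    rcases h6 i j hij with h7 | h7
    · exact h _ h7 (by simp [qm_msk, h4, h5])
    · exact h _ h7 (by simp [qm_msk, h4, h5])
  · right; left
    intro σ τ hσ hτ
    have h8 := Nat.le_of_ble_eq_true h
    have mem : ∀ ρ : Equiv.Perm (Fin 4), (∀ i, Q (ρ i) i = true) → (ρ 0, ρ 1, ρ 2, ρ 3) ∈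
        perms.filter fun s => qm (msk Q) s.1 0 && (qm (msk Q) s.2.1 1 && (qm (msk Q) s.2.2.1 2 &&
          qm (msk Q) s.2.2.2 3)) := by
      intro ρ hρ
      rw [List.mem_filter]
      exact ⟨perms_ok ρ, by simp [qm_msk, hρ]⟩
    have huniq : ∀ (l : List (Fin 4 × Fin 4 × Fin 4 × Fin 4)), l.length ≤ 1 → ∀ x ∈ l, ∀ y ∈ l,
        x = y := by
      intro l hl x hx y hy
      match l, hl with
      | [], _ => simp at hx
      | [z], _ =>
        simp only [List.mem_singleton] at hx hy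
        rw [hx, hy]
    have h9 := huniq _ h8 _ (mem σ hσ) _ (mem τ hτ)
    simp only [Prod.mk.injEq] at h9
    obtain ⟨e0, e1, e2, e3⟩ := h9
    ext i
    fin_cases i
    · exact congrArg Fin.val e0
    · exact congrArg Fin.val e1
    · exact congrArg Fin.val e2
    · exact congrArg Fin.val e3
  · right; right
    rw [List.any_eq_true] at h
    obtain ⟨c, hc, hc2⟩ := h
    refine ⟨c, hc, fun i j => ?_⟩
    rw [← Nat.eq_of_beq_eq_true hc2, qm_msk]


/-! ### matrices -/

theorem expand : ((X - 1) ^ 4 : ℝ[X]) = X ^ 4 - C 4 * X ^ 3 + C 6 * X ^ 2 - C 4 * X + C 1 := by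
  simp only [map_ofNat, map_one]
  ring

theorem trace_X {ι : Type} [Fintype ι] [DecidableEq ι] (hι : Fintype.card ι = 4)
    (B : Matrix ι ι ℝ) (hB : B.charpoly = X ^ 4) : B.trace = 0 := by
  have : Nonempty ι := Fintype.card_pos_iff.1 (by omega)
  rw [Matrix.trace_eq_neg_charpoly_coeff, hB, hι]
  simp [coeff_X_pow]

theorem trace_X1 {ι : Type} [Fintype ι] [DecidableEq ι] (hι : Fintype.card ι = 4)
    (B : Matrix ι ι ℝ) (hB : B.charpoly = (X - 1) ^ 4) : B.trace = 4 := by
  have : Nonempty ι := Fintype.card_pos_iff.1 (by omega)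
  rw [Matrix.trace_eq_neg_charpoly_coeff, hB, hι, expand]
  simp [coeff_X_pow, coeff_X, coeff_one]

theorem det_X (B : Matrix (Fin 4) (Fin 4) ℝ) (hB : B.charpoly = X ^ 4) : B.det = 0 := by
  rw [Matrix.det_eq_sign_charpoly_coeff, hB]
  simp [coeff_X_pow]

theorem det_X1 (B : Matrix (Fin 4) (Fin 4) ℝ) (hB : B.charpoly = (X - 1) ^ 4) : B.det = 1 := by
  rw [Matrix.det_eq_sign_charpoly_coeff, hB, expand]
  simp [coeff_X_pow, coeff_X, coeff_one]
  norm_num

theorem trace_sq (B : Matrix (Fin 4) (Fin 4) ℝ) (hB : B.charpoly = X ^ 4) : (B * B).trace = 0 := by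
  have h1 : B ^ 4 = 0 := by
    have := Matrix.aeval_self_charpoly B
    rw [hB] at this
    simpa using this
  have h2 : IsNilpotent (B * B) := ⟨2, by
    have : (B * B) ^ 2 = B ^ 4 := by noncomm_ring
    rw [this, h1]⟩
  exact (Matrix.isNilpotent_trace_of_isNilpotent h2).eq_zero

theorem no_two (Q : Fin 4 → Fin 4 → Bool) (h2 : Q 2 2 = true)
    (h : ∀ i j, i ≠ j → Q i j = true → Q j i = true → False) (B : Matrix (Fin 4) (Fin 4) ℝ)
    (hB : Exact Q B) : B.charpoly ≠ X ^ 4 := by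
  intro hc
  have h1 := trace_sq B hc
  have h3 : (B * B).trace = ∑ i, B i i ^ 2 := by
    unfold Matrix.trace
    refine Finset.sum_congr rfl fun i _ => ?_
    rw [Matrix.diag_apply, Matrix.mul_apply, Finset.sum_eq_single i]
    · ring
    · intro j _ hj
      by_contra hcon
      have h4 := mul_ne_zero_iff.1 hcon
      exact h i j hj.symm ((hB i j).1 h4.1) ((hB j i).1 h4.2)
    · intro hi
      exact absurd (Finset.mem_univ i) hi
  rw [h3] at h1
  have h4 := (Finset.sum_eq_zero_iff_of_nonneg (fun i _ => sq_nonneg (B i i))).1 h1 2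
    (Finset.mem_univ _)
  exact (hB 2 2).2 h2 (pow_eq_zero_iff (two_ne_zero) |>.1 h4)

theorem one_perm (Q : Fin 4 → Fin 4 → Bool)
    (h : ∀ σ τ : Equiv.Perm (Fin 4), (∀ i, Q (σ i) i = true) → (∀ i, Q (τ i) i = true) → σ = τ) :
    (∀ B : Matrix (Fin 4) (Fin 4) ℝ, Exact Q B → B.charpoly ≠ X ^ 4) ∨
    (∀ B : Matrix (Fin 4) (Fin 4) ℝ, Exact Q B → B.charpoly ≠ (X - 1) ^ 4) := by
  by_cases hex : ∃ σ : Equiv.Perm (Fin 4), ∀ i, Q (σ i) i = true
  · left
    obtain ⟨σ, hσ⟩ := hex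
    intro B hB hc
    have h1 := det_X B hc
    rw [Matrix.det_apply', Finset.sum_eq_single σ] at h1
    · rcases mul_eq_zero.1 h1 with h2 | h2
      · rcases Int.units_eq_one_or (Equiv.Perm.sign σ) with h3 | h3 <;> rw [h3] at h2 <;>
          simp at h2
      · obtain ⟨i, -, hi⟩ := Finset.prod_eq_zero_iff.1 h2
        exact (hB (σ i) i).2 (hσ i) hi
    · intro τ _ hτ
      have : ∃ i, Q (τ i) i ≠ true := by
        by_contra hcon
        push Not at hcon
        exact hτ (h τ σ hcon hσ)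
      obtain ⟨i, hi⟩ := this
      have h2 : B (τ i) i = 0 := by
        by_contra hcon
        exact hi ((hB _ _).1 hcon)
      have h5 : ∏ i, B (τ i) i = 0 := Finset.prod_eq_zero (Finset.mem_univ i) h2
      rw [h5, mul_zero]
    · intro hcon
      exact absurd (Finset.mem_univ σ) hcon
  · right
    push Not at hex
    intro B hB hc
    have h1 := det_X1 B hc
    rw [Matrix.det_apply', Finset.sum_eq_zero] at h1
    · exact zero_ne_one h1
    · intro τ _
      obtain ⟨i, hi⟩ := hex τ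
      have h2 : B (τ i) i = 0 := by
        by_contra hcon
        exact hi ((hB _ _).1 hcon)
      have h5 : ∏ i, B (τ i) i = 0 := Finset.prod_eq_zero (Finset.mem_univ i) h2
      rw [h5, mul_zero]

theorem p4 (a b u v : ℝ) (h : ∀ x : ℝ, (x ^ 2 - u) * (x - a) * (x - b) - v = (x - 1) ^ 4) :
    False := by
  have h0 := h 0
  have h1 := h 1
  have h2 := h (-1)
  have h3 := h 2
  have h4 := h (-2)
  have e1 : (4 - u) * (a + b) = 20 := by linear_combination (h4 - h3) / 4
  have e2 : (1 - u) * (a + b) = 8 := by linear_combination (h2 - h1) / 2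
  have e3 : a + b = 4 := by linarith
  rw [e3] at e2
  have e4 : u = -1 := by linarith
  subst e4
  have e5 : a * b = 5 := by nlinarith
  nlinarith [sq_nonneg (a - b)]

theorem eval_cp (B : Matrix (Fin 4) (Fin 4) ℝ) (hB : B.charpoly = (X - 1) ^ 4) (x : ℝ) :
    (Matrix.scalar (Fin 4) x - B).det = (x - 1) ^ 4 := by
  rw [← Matrix.eval_charpoly, hB]
  simp

theorem char_det (B : Matrix (Fin 4) (Fin 4) ℝ) (x : ℝ) :
    (Matrix.scalar (Fin 4) x - B).det = (x - B 0 0) *
        ((x - B 1 1) * (x - B 2 2) * (x - B 3 3) - (x - B 1 1) * B 2 3 * B 3 2 -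
          B 1 2 * B 2 1 * (x - B 3 3) - B 1 2 * B 2 3 * B 3 1 - B 1 3 * B 2 1 * B 3 2 -
          B 1 3 * (x - B 2 2) * B 3 1) +
      (B 0 1 *
          (-(B 1 0 * (x - B 2 2) * (x - B 3 3)) + B 1 0 * B 2 3 * B 3 2 -
            B 1 2 * B 2 0 * (x - B 3 3) - B 1 2 * B 2 3 * B 3 0 - B 1 3 * B 2 0 * B 3 2 -
            B 1 3 * (x - B 2 2) * B 3 0) +
        (-(B 0 2 *
              (B 1 0 * B 2 1 * (x - B 3 3) + B 1 0 * B 2 3 * B 3 1 + (x - B 1 1) * B 2 0 * (x - B 3 3) +
                    (x - B 1 1) * B 2 3 * B 3 0 - B 1 3 * B 2 0 * B 3 1 +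
                B 1 3 * B 2 1 * B 3 0)) +
          B 0 3 *
              (-(B 1 0 * B 2 1 * B 3 2) - B 1 0 * (x - B 2 2) * B 3 1 -
                (x - B 1 1) * B 2 0 * B 3 2 - (x - B 1 1) * (x - B 2 2) * B 3 0 -
                  B 1 2 * B 2 0 * B 3 1 +
                B 1 2 * B 2 1 * B 3 0))) := by
  rw [Matrix.det_succ_row_zero]
  simp [Fin.sum_univ_succ, Matrix.det_fin_three, Fin.succAbove, Matrix.scalar_apply,
    Matrix.submatrix_apply]
  ring

theorem p4_case (Q : Fin 4 → Fin 4 → Bool) (c : ℕ) (hc : c ∈ P4) (hQ : ∀ i j, Q i j = qm c i j)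
    (B : Matrix (Fin 4) (Fin 4) ℝ) (hB : Exact Q B) : B.charpoly ≠ (X - 1) ^ 4 := by
  intro h
  have z : ∀ i j, qm c i j = false → B i j = 0 := by
    intro i j hij
    by_contra hcon
    have := (hB i j).1 hcon
    rw [hQ, hij] at this
    exact absurd this (by simp)
  simp only [P4, List.mem_cons, List.not_mem_nil, or_false] at hc
  rcases hc with rfl | rfl | rfl | rfl
  · refine p4 (B 2 2) (B 3 3) (B 0 1 * B 1 0) (B 0 1 * B 1 2 * B 2 3 * B 3 0) fun x => ?_
    rw [← eval_cp B h x, char_det, z 0 0 (by decide), z 0 2 (by decide), z 0 3 (by decide),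
      z 1 1 (by decide), z 1 3 (by decide), z 2 0 (by decide), z 2 1 (by decide),
      z 3 1 (by decide), z 3 2 (by decide)]
    ring
  · refine p4 (B 2 2) (B 3 3) (B 0 1 * B 1 0) (B 1 0 * B 0 2 * B 2 3 * B 3 1) fun x => ?_
    rw [← eval_cp B h x, char_det, z 0 0 (by decide), z 1 2 (by decide), z 0 3 (by decide),
      z 1 1 (by decide), z 1 3 (by decide), z 2 0 (by decide), z 2 1 (by decide),
      z 3 0 (by decide), z 3 2 (by decide)]
    ring
  · refine p4 (B 2 2) (B 3 3) (B 0 1 * B 1 0) (B 0 1 * B 1 3 * B 3 2 * B 2 0) fun x => ?_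
    rw [← eval_cp B h x, char_det, z 0 0 (by decide), z 1 2 (by decide), z 0 3 (by decide),
      z 1 1 (by decide), z 0 2 (by decide), z 2 3 (by decide), z 2 1 (by decide),
      z 3 0 (by decide), z 3 1 (by decide)]
    ring
  · refine p4 (B 2 2) (B 3 3) (B 0 1 * B 1 0) (B 1 0 * B 0 3 * B 3 2 * B 2 1) fun x => ?_
    rw [← eval_cp B h x, char_det, z 0 0 (by decide), z 1 2 (by decide), z 1 3 (by decide),
      z 1 1 (by decide), z 0 2 (by decide), z 2 3 (by decide), z 2 0 (by decide),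
      z 3 0 (by decide), z 3 1 (by decide)]
    ring

theorem main : S_FOUR := by
  intro ι _ _ Q hQ hι h7
  by_cases h0 : ∃ a b : ι, a ≠ b ∧ Q a a = true ∧ Q b b = true
  · obtain ⟨a, b, hab, ha, hb⟩ := h0
    obtain ⟨e, he2, he3⟩ : ∃ e : Fin 4 ≃ ι, e 2 = a ∧ e 3 = b := by
      let e0 : ι ≃ Fin 4 := Fintype.equivFinOfCardEq hι
      have key : ∀ x y : Fin 4, x ≠ y → ∃ π : Equiv.Perm (Fin 4), π 2 = x ∧ π 3 = y := by decide
      obtain ⟨π, h1, h2⟩ := key (e0 a) (e0 b) (fun h => hab (e0.injective h))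
      exact ⟨π.trans e0.symm, by simp [h1], by simp [h2]⟩
    have hs : Strong fun i j => Q (e i) (e j) := by
      intro i j
      have h1 : Relation.ReflTransGen (fun a b => Q a b = true) (e i) (e j) := hQ (e i) (e j)
      have h2 : Relation.ReflTransGen (fun i j => Q (e i) (e j) = true) (e.symm (e i))
          (e.symm (e j)) := by
        refine Relation.ReflTransGen.lift (p := fun i j => Q (e i) (e j) = true) (fun x => e.symm x)
          ?_ _ _ h1
        intro x y hxy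
        change Q (e (e.symm x)) (e (e.symm y)) = true
        simpa using hxy
      rw [Equiv.symm_apply_apply, Equiv.symm_apply_apply] at h2
      exact h2
    have hA : arcs (fun i j => Q (e i) (e j)) = 7 := by
      rw [← h7]
      unfold arcs
      refine Finset.card_bij (fun p _ => (e p.1, e p.2)) ?_ ?_ ?_
      · intro p hp
        simpa using hp
      · intro p _ q _ hpq
        simpa [Prod.ext_iff] using hpq
      · intro q hq
        refine ⟨(e.symm q.1, e.symm q.2), ?_, by simp⟩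
        simpa using hq
    have hcp : ∀ B : Matrix ι ι ℝ, (B.submatrix e e).charpoly = B.charpoly := by
      intro B
      have := Matrix.charpoly_reindex e.symm B
      simpa [Matrix.reindex_apply] using this
    have h2 : (fun i j => Q (e i) (e j)) 2 2 = true := by
      simpa [he2] using ha
    have h3 : (fun i j => Q (e i) (e j)) 3 3 = true := by
      simpa [he3] using hb
    rcases cases4 _ hs h2 h3 hA with h | h | ⟨c, hc, h⟩
    · left
      intro B hB hc
      exact no_two _ h2 h (B.submatrix e e) (fun i j => hB (e i) (e j)) (by rw [hcp, hc])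
    · rcases one_perm (fun i j => Q (e i) (e j)) h with h | h
      · left
        intro B hB hc
        exact h (B.submatrix e e) (fun i j => hB (e i) (e j)) (by rw [hcp, hc])
      · right
        intro B hB hc
        exact h (B.submatrix e e) (fun i j => hB (e i) (e j)) (by rw [hcp, hc])
    · right
      intro B hB hc'
      exact p4_case _ c hc h (B.submatrix e e) (fun i j => hB (e i) (e j)) (by rw [hcp, hc'])
  · push Not at h0
    by_cases h1 : ∃ a, Q a a = true
    · left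
      obtain ⟨a, ha⟩ := h1
      intro B hB hc
      have ht := trace_X hι B hc
      unfold Matrix.trace at ht
      rw [Finset.sum_eq_single a] at ht
      · exact (hB a a).2 ha ht
      · intro b _ hb
        by_contra hcon
        exact h0 a b hb.symm ha ((hB b b).1 hcon)
      · intro hcon
        exact absurd (Finset.mem_univ a) hcon
    · right
      push Not at h1
      intro B hB hc
      have ht := trace_X1 hι B hc
      unfold Matrix.trace at ht
      rw [Finset.sum_eq_zero] at ht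
      · norm_num at ht
      · intro b _
        by_contra hcon
        exact h1 b ((hB b b).1 hcon)

end Pool.Agent.H89.SP.L.FOUR
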