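import Pool.Agent.H89.SP.LB

set_option autoImplicit false

namespace Pool.Agent.H89.SP.L.GEN

open Polynomial Matrix Pool.Agent.H89.SP

theorem exists_le_map {α β : Type*} [DecidableEq α] (f : α → β) (t : Multiset β) :
    ∀ S : Multiset α, t ≤ S.map f → ∃ s : Multiset α, s ≤ S ∧ s.map f = t := by
  induction t using Multiset.induction_on with
  | empty => exact fun S _ => ⟨0, Multiset.zero_le _, rfl⟩
  | cons a t ih =>
    intro S h
    have ha : a ∈ S.map f := Multiset.mem_of_le h (Multiset.mem_cons_self a t)
    obtain ⟨x, hx, rfl⟩ := Multiset.mem_map.mp ha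
    have h2 : t ≤ (S.erase x).map f := by
      have : S.map f = f x ::ₘ (S.erase x).map f := by
        rw [← Multiset.map_cons, Multiset.cons_erase hx]
      rw [this] at h
      exact (Multiset.cons_le_cons_iff _).mp h
    obtain ⟨s, hs, rfl⟩ := ih _ h2
    refine ⟨x ::ₘ s, ?_, by simp⟩
    rw [← Multiset.cons_erase hx]
    exact Multiset.cons_le_cons _ hs

theorem exists_fin {α : Type*} {b : ℕ} (s : Multiset α) (hs : Multiset.card s = b) :
    ∃ m : Fin b → α, (Finset.univ : Finset (Fin b)).val.map m = s := by
  obtain ⟨l, rfl⟩ : ∃ l : List α, s = (l : Multiset α) := ⟨s.toList, (Multiset.coe_toList s).symm⟩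
  rw [Multiset.coe_card] at hs
  subst hs
  exact ⟨l.get, by rw [Fin.univ_val_map, List.ofFn_get]⟩

/-- `G` at the coefficients of `∏_j (X - X_{e j})` -/
noncomputable def H {F : Type} [Field F] {n b : ℕ} (G : MvPolynomial (Fin b) F)
    (e : Fin b → Fin n) : MvPolynomial (Fin n) F :=
  MvPolynomial.aeval (fun k : Fin b =>
    (∏ j, (X - C (MvPolynomial.X (e j))) : (MvPolynomial (Fin n) F)[X]).coeff k) G

theorem eval_H {F : Type} [Field F] {n b : ℕ} (G : MvPolynomial (Fin b) F)
    (e : Fin b → Fin n) (l : Fin n → F) : MvPolynomial.eval l (H G e) =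
      MvPolynomial.eval (fun k : Fin b => (∏ j, (X - C (l (e j))) : F[X]).coeff k) G := by
  have h1 : ∀ k : Fin b, MvPolynomial.eval l
      ((∏ j, (X - C (MvPolynomial.X (e j))) : (MvPolynomial (Fin n) F)[X]).coeff k) =
      (∏ j, (X - C (l (e j))) : F[X]).coeff k := by
    intro k
    rw [← Polynomial.coeff_map, Polynomial.map_prod]
    simp
  unfold H
  induction G using MvPolynomial.induction_on with
  | C a => simp [MvPolynomial.algebraMap_eq]
  | add p q hp hq => simp only [map_add, hp, hq]
  | mul_X p i hp => rw [map_mul, map_mul, hp, MvPolynomial.aeval_X, h1, map_mul, MvPolynomial.eval_X]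

theorem H_ne {F : Type} [Field F] [IsAlgClosed F] {n b : ℕ} {G : MvPolynomial (Fin b) F}
    (hG : G ≠ 0) {e : Fin b → Fin n} (he : Function.Injective e) : H G e ≠ 0 := by
  have : Infinite F := IsAlgClosed.instInfinite
  obtain ⟨c, hc⟩ : ∃ c : Fin b → F, MvPolynomial.eval c G ≠ 0 := by
    by_contra hcon
    push Not at hcon
    exact hG (MvPolynomial.funext fun x => by rw [hcon x, map_zero])
  -- the monic polynomial with coefficients `c`
  set r : F[X] := X ^ b + ∑ i : Fin b, C (c i) * X ^ (i : ℕ) with hr
  have hdeg : (∑ i : Fin b, C (c i) * X ^ (i : ℕ) : F[X]).degree < (b : ℕ) := by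
    refine lt_of_le_of_lt (Polynomial.degree_sum_le _ _) ?_
    rw [Finset.sup_lt_iff (by exact_mod_cast WithBot.bot_lt_coe b)]
    intro i _
    refine lt_of_le_of_lt (Polynomial.degree_C_mul_X_pow_le _ _) ?_
    exact_mod_cast i.2
  have hmon : r.Monic := Polynomial.monic_X_pow_add hdeg
  have hnat : r.natDegree = b := by
    have hd : r.degree = (b : ℕ) := by
      rw [hr, Polynomial.degree_add_eq_left_of_degree_lt (by simpa using hdeg)]
      simp
    exact Polynomial.natDegree_eq_of_degree_eq_some hd
  have hcoeff : ∀ k : Fin b, r.coeff k = c k := by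
    intro k
    rw [hr, Polynomial.coeff_add, Polynomial.coeff_X_pow, if_neg (by have := k.2; omega),
      Polynomial.finsetSum_coeff, zero_add, Finset.sum_eq_single k]
    · simp
    · intro j _ hj
      rw [Polynomial.coeff_C_mul, Polynomial.coeff_X_pow, if_neg, mul_zero]
      intro h
      exact hj (Fin.ext h.symm)
    · simp
  have hsp : r.Splits := IsAlgClosed.splits r
  have hprod := hsp.eq_prod_roots_of_monic hmon
  have hcard : Multiset.card r.roots = b := by
    rw [← hnat]; exact hsp.natDegree_eq_card_roots.symm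
  obtain ⟨m, hm'⟩ := exists_fin r.roots hcard
  have hm : (∏ j, (X - C (m j)) : F[X]) = r := by
    conv_rhs => rw [hprod, ← hm', Multiset.map_map]
    rfl
  intro h0
  apply hc
  have := eval_H G e (fun i => if h : ∃ j, e j = i then m h.choose else 0)
  rw [h0, map_zero] at this
  have h3 : ∀ j, (fun i => if h : ∃ j, e j = i then m h.choose else 0) (e j) = m j := by
    intro j
    have hex : ∃ j', e j' = e j := ⟨j, rfl⟩
    simp only [dif_pos hex]
    rw [he hex.choose_spec]
  have h4 : (∏ j, (X - C ((fun i => if h : ∃ j, e j = i then m h.choose else 0) (e j))) : F[X]) =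
      r := by
    rw [← hm]
    exact Finset.prod_congr rfl fun j _ => by rw [h3 j]
  rw [h4] at this
  have h5 : (fun k : Fin b => r.coeff k) = c := funext hcoeff
  rw [h5] at this
  exact this.symm

theorem H_map {F K : Type} [Field F] [Field K] (φ : F →+* K) {n b : ℕ}
    (G : MvPolynomial (Fin b) F) (e : Fin b → Fin n) :
    MvPolynomial.map φ (H G e) = H (MvPolynomial.map φ G) e := by
  have h1 : ∀ k : Fin b, MvPolynomial.map φ
      ((∏ j, (X - C (MvPolynomial.X (e j))) : (MvPolynomial (Fin n) F)[X]).coeff k) =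
      (∏ j, (X - C (MvPolynomial.X (e j))) : (MvPolynomial (Fin n) K)[X]).coeff k := by
    intro k
    rw [← Polynomial.coeff_map, Polynomial.map_prod]
    simp
  unfold H
  induction G using MvPolynomial.induction_on with
  | C a => simp [MvPolynomial.algebraMap_eq]
  | add p q hp hq => simp only [map_add, hp, hq]
  | mul_X p i hp => rw [map_mul, map_mul, hp, MvPolynomial.aeval_X, h1, map_mul, MvPolynomial.map_X,
      map_mul, MvPolynomial.aeval_X]

theorem H_ne' {F : Type} [Field F] {n b : ℕ} {G : MvPolynomial (Fin b) F}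
    (hG : G ≠ 0) {e : Fin b → Fin n} (he : Function.Injective e) : H G e ≠ 0 := by
  intro h0
  have h1 : MvPolynomial.map (algebraMap F (AlgebraicClosure F)) G ≠ 0 := by
    intro h
    apply hG
    apply MvPolynomial.map_injective (algebraMap F (AlgebraicClosure F))
      (algebraMap F (AlgebraicClosure F)).injective
    rw [h, map_zero]
  apply H_ne h1 he
  rw [← H_map, h0, map_zero]

/-- the statement over every infinite field -/
theorem mainI (F : Type) [Field F] [Infinite F] (n b : ℕ) (G : MvPolynomial (Fin b) F)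
    (hG : G ≠ 0) : ∃ p : F[X], p.Monic ∧ p.natDegree = n ∧
      ∀ q : F[X], q.Monic → q.natDegree = b → q ∣ p →
        MvPolynomial.eval (fun k => q.coeff k.val) G ≠ 0 := by
  classical
  have hne : (∏ e ∈ (Finset.univ.filter (fun e : Fin b → Fin n => Function.Injective e)),
      H G e) ≠ 0 := by
    rw [Finset.prod_ne_zero_iff]
    intro e he
    exact H_ne' hG (Finset.mem_filter.mp he).2
  obtain ⟨l, hl⟩ : ∃ l : Fin n → F, MvPolynomial.eval l
      (∏ e ∈ (Finset.univ.filter (fun e : Fin b → Fin n => Function.Injective e)), H G e) ≠ 0 := by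
    by_contra hcon
    push Not at hcon
    exact hne (MvPolynomial.funext fun x => by rw [hcon x, map_zero])
  rw [map_prod, Finset.prod_ne_zero_iff] at hl
  refine ⟨∏ i : Fin n, (X - C (l i)), Polynomial.monic_prod_of_monic _ _
    (fun i _ => Polynomial.monic_X_sub_C _), ?_, ?_⟩
  · rw [Polynomial.natDegree_prod_of_monic _ _ (fun i _ => Polynomial.monic_X_sub_C _)]
    simp
  · intro q hq hqb hdvd
    have hp0 : (∏ i : Fin n, (X - C (l i)) : F[X]) ≠ 0 :=
      (Polynomial.monic_prod_of_monic _ _ (fun i _ => Polynomial.monic_X_sub_C _)).ne_zero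
    have hroots : (∏ i : Fin n, (X - C (l i)) : F[X]).roots = (Finset.univ.val.map l) := by
      have : (∏ i : Fin n, (X - C (l i)) : F[X]) =
          ((Finset.univ.val.map l).map (fun a => X - C a)).prod := by
        rw [Multiset.map_map]; rfl
      rw [this, Polynomial.roots_multiset_prod_X_sub_C]
    have hspp : (∏ i : Fin n, (X - C (l i)) : F[X]).Splits :=
      Polynomial.Splits.prod (fun i _ => Polynomial.Splits.X_sub_C _)
    have hle := Polynomial.roots.le_of_dvd hp0 hdvd
    rw [hroots] at hle
    obtain ⟨s, hs, hs2⟩ := exists_le_map l q.roots _ hle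
    have hsp : q.Splits := hspp.of_dvd hp0 hdvd
    have hcard : Multiset.card s = b := by
      rw [← Multiset.card_map l s, hs2, ← hqb]; exact hsp.natDegree_eq_card_roots.symm
    obtain ⟨e, he⟩ := exists_fin s hcard
    have hinj : Function.Injective e := by
      have hnd : (Finset.univ.val.map e).Nodup := by
        rw [he]; exact Multiset.nodup_of_le hs Finset.univ.nodup
      intro x y hxy
      exact Multiset.inj_on_of_nodup_map hnd x (Finset.mem_univ x) y (Finset.mem_univ y) hxy
    have h6 := hl e (Finset.mem_filter.mpr ⟨Finset.mem_univ _, hinj⟩)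
    rw [eval_H] at h6
    have h7 : (∏ j, (X - C (l (e j))) : F[X]) = q := by
      conv_rhs => rw [hsp.eq_prod_roots_of_monic hq, ← hs2, ← he, Multiset.map_map,
        Multiset.map_map]
      rfl
    rw [h7] at h6
    exact h6

theorem main : LB.S_GEN := by
  intro F _ _ n b G hG
  have : Infinite F := IsAlgClosed.instInfinite
  exact mainI F n b G hG

end Pool.Agent.H89.SP.L.GEN
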