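import Pool.Agent.H89.SP.LB

set_option autoImplicit false

namespace Pool.Agent.H89.SP.L.SMALL

open Polynomial Matrix
open Pool.Agent.H89.SP.LB

/-- every proper nonempty set is left by an arc -/
def Cut {ι : Type} (Q : ι → ι → Bool) : Prop :=
  ∀ S : ι → Bool, ∀ i j, S i = true → S j = false → ∃ a b, S a = true ∧ S b = false ∧ Q a b = true

lemma cut_of_strong {ι : Type} (Q : ι → ι → Bool) (h : Strong Q) : Cut Q := by
  intro S i j hi hj
  by_contra hcon
  push Not at hcon
  have h1 : ∀ b, Reach Q i b → S b = true := by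
    intro b hb
    induction hb with
    | refl => exact hi
    | tail _ h2 ih =>
      rename_i b' c'
      by_contra h3
      exact hcon _ _ ih (by simpa using h3) h2
  have := h1 j (h i j)
  rw [hj] at this
  exact absurd this (by decide)

instance {n : ℕ} (Q : Fin n → Fin n → Bool) : Decidable (Cut Q) := by
  unfold Cut
  infer_instance

/-- exactly one loop -/
def One {ι : Type} (Q : ι → ι → Bool) : Prop := ∃ i, Q i i = true ∧ ∀ j, j ≠ i → Q j j = false

/-- no loop -/
def Zero {ι : Type} (Q : ι → ι → Bool) : Prop := ∀ i, Q i i = false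

instance {n : ℕ} (Q : Fin n → Fin n → Bool) : Decidable (One Q) := by
  unfold One
  infer_instance

instance {n : ℕ} (Q : Fin n → Fin n → Bool) : Decidable (Zero Q) := by
  unfold Zero
  infer_instance

lemma comb1 : ∀ Q : Fin 1 → Fin 1 → Bool, Cut Q →
    (Finset.univ.filter (fun ij : Fin 1 × Fin 1 => Q ij.1 ij.2 = true)).card = 1 →
      Zero Q ∨ One Q := by
  decide

lemma comb2 : ∀ Q : Fin 2 → Fin 2 → Bool, Cut Q →
    (Finset.univ.filter (fun ij : Fin 2 × Fin 2 => Q ij.1 ij.2 = true)).card = 3 →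
      Zero Q ∨ One Q := by
  decide

/-- two loops and a directed triangle -/
def Two (Q : Fin 3 → Fin 3 → Bool) : Prop :=
  (∀ a b, a ≠ b → Q a b = true → Q b a = false) ∧
    ((Q 0 0 = false ∧ Q 1 1 = true ∧ Q 2 2 = true) ∨ (Q 0 0 = true ∧ Q 1 1 = false ∧ Q 2 2 = true) ∨
      (Q 0 0 = true ∧ Q 1 1 = true ∧ Q 2 2 = false))

instance (Q : Fin 3 → Fin 3 → Bool) : Decidable (Two Q) := by
  unfold Two
  infer_instance

lemma comb3 : ∀ Q : Fin 3 → Fin 3 → Bool, Cut Q →
    (Finset.univ.filter (fun ij : Fin 3 × Fin 3 => Q ij.1 ij.2 = true)).card = 5 →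
      Zero Q ∨ One Q ∨ Two Q := by
  decide +kernel

lemma card_transfer {ι : Type} [Fintype ι] [DecidableEq ι] (Q : ι → ι → Bool) {n : ℕ}
    (e : ι ≃ Fin n) : (Finset.univ.filter
      (fun ij : Fin n × Fin n => Q (e.symm ij.1) (e.symm ij.2) = true)).card = arcs Q := by
  unfold arcs
  refine Finset.card_bij (fun ij _ => (e.symm ij.1, e.symm ij.2)) ?_ ?_ ?_
  · intro a ha
    rw [Finset.mem_filter] at ha ⊢
    exact ⟨Finset.mem_univ _, ha.2⟩
  · intro a _ b _ h
    rw [Prod.mk.injEq] at h
    exact Prod.ext (e.symm.injective h.1) (e.symm.injective h.2)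
  · intro b hb
    rw [Finset.mem_filter] at hb
    refine ⟨(e b.1, e b.2), ?_, ?_⟩
    · rw [Finset.mem_filter]
      exact ⟨Finset.mem_univ _, by simpa using hb.2⟩
    · simp

lemma cut_transfer {ι : Type} (Q : ι → ι → Bool) {n : ℕ} (e : ι ≃ Fin n) (h : Cut Q) :
    Cut (fun i j => Q (e.symm i) (e.symm j)) := by
  intro S i j hi hj
  obtain ⟨a, b, ha, hb, hab⟩ := h (fun x => S (e x)) (e.symm i) (e.symm j) (by simpa using hi)
    (by simpa using hj)
  exact ⟨e a, e b, ha, hb, by simpa using hab⟩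

lemma zero_transfer {ι : Type} (Q : ι → ι → Bool) {n : ℕ} (e : ι ≃ Fin n)
    (h : Zero (fun i j => Q (e.symm i) (e.symm j))) : Zero Q := by
  intro i
  have := h (e i)
  simpa using this

lemma one_transfer {ι : Type} (Q : ι → ι → Bool) {n : ℕ} (e : ι ≃ Fin n)
    (h : One (fun i j => Q (e.symm i) (e.symm j))) : One Q := by
  obtain ⟨i, hi, hj⟩ := h
  refine ⟨e.symm i, hi, fun j hne => ?_⟩
  have := hj (e j) (fun h => hne (by rw [← h]; simp))
  simpa using this

lemma coeff1 {F : Type} [Field F] (M : Matrix (Fin 3) (Fin 3) F) : M.charpoly.coeff 1 =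
    (M 0 0 * M 1 1 - M 0 1 * M 1 0) + (M 0 0 * M 2 2 - M 0 2 * M 2 0) +
      (M 1 1 * M 2 2 - M 1 2 * M 2 1) := by
  have h : M.charpoly = X ^ 3 - C (M 0 0 + M 1 1 + M 2 2) * X ^ 2 +
      C ((M 0 0 * M 1 1 - M 0 1 * M 1 0) + (M 0 0 * M 2 2 - M 0 2 * M 2 0) +
      (M 1 1 * M 2 2 - M 1 2 * M 2 1)) * X - C M.det := by
    unfold Matrix.charpoly
    rw [det_fin_three, det_fin_three]
    simp only [charmatrix_apply_eq, charmatrix_apply_ne _ _ _ (show (0 : Fin 3) ≠ 1 by decide),
      charmatrix_apply_ne _ _ _ (show (0 : Fin 3) ≠ 2 by decide),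
      charmatrix_apply_ne _ _ _ (show (1 : Fin 3) ≠ 0 by decide),
      charmatrix_apply_ne _ _ _ (show (1 : Fin 3) ≠ 2 by decide),
      charmatrix_apply_ne _ _ _ (show (2 : Fin 3) ≠ 0 by decide),
      charmatrix_apply_ne _ _ _ (show (2 : Fin 3) ≠ 1 by decide)]
    simp only [map_add, map_sub, map_mul]
    ring
  rw [h]
  rw [coeff_sub, coeff_add, coeff_sub, coeff_C_mul, coeff_C_mul, coeff_X_pow, coeff_X_pow,
    coeff_X_one, coeff_C]
  norm_num

lemma two_case {F : Type} [Field F] (Q : Fin 3 → Fin 3 → Bool) (hQ : Two Q)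
    (M : Matrix (Fin 3) (Fin 3) F) (hM : Exact Q M) : M.charpoly ≠ X ^ 3 := by
  intro h
  have h1 := coeff1 M
  rw [h, coeff_X_pow, if_neg (by norm_num)] at h1
  have hz : ∀ a b, a ≠ b → M a b * M b a = 0 := by
    intro a b hab
    by_contra hne
    have h2 := (hM a b).1 (left_ne_zero_of_mul hne)
    have h3 := (hM b a).1 (right_ne_zero_of_mul hne)
    rw [hQ.1 a b hab h2] at h3
    exact absurd h3 (by decide)
  rw [hz 0 1 (by decide), hz 0 2 (by decide), hz 1 2 (by decide)] at h1
  have hf : ∀ a, Q a a = false → M a a = 0 := by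
    intro a ha
    by_contra hne
    have := (hM a a).1 hne
    rw [ha] at this
    exact absurd this (by decide)
  have ht : ∀ a, Q a a = true → M a a ≠ 0 := fun a ha => (hM a a).2 ha
  rcases hQ.2 with ⟨h0, h2, h3⟩ | ⟨h0, h2, h3⟩ | ⟨h0, h2, h3⟩
  · rw [hf 0 h0] at h1
    exact mul_ne_zero (ht 1 h2) (ht 2 h3) (by linear_combination -h1)
  · rw [hf 1 h2] at h1
    exact mul_ne_zero (ht 0 h0) (ht 2 h3) (by linear_combination -h1)
  · rw [hf 2 h3] at h1
    exact mul_ne_zero (ht 0 h0) (ht 1 h2) (by linear_combination -h1)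

theorem main : LB.S_SMALL := by
  classical
  intro F ι _ _ _ Q hQ h1 h2
  have hc := cut_of_strong Q hQ
  have hpos : 1 ≤ Fintype.card ι := by omega
  have : Nonempty ι := Fintype.card_pos_iff.1 hpos
  -- no loops
  have caseZ : Zero Q → (∃ G : MvPolynomial (Fin (Fintype.card ι)) F, G ≠ 0 ∧
      ∀ B : Matrix ι ι F, Exact Q B →
        MvPolynomial.eval (fun k => B.charpoly.coeff k.val) G = 0) := by
    intro hz
    refine ⟨MvPolynomial.X ⟨Fintype.card ι - 1, by omega⟩, MvPolynomial.X_ne_zero _, fun B hB => ?_⟩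
    rw [MvPolynomial.eval_X]
    have ht := Matrix.trace_eq_neg_charpoly_coeff B
    have ht0 : B.trace = 0 := by
      unfold Matrix.trace
      refine Finset.sum_eq_zero fun i _ => ?_
      rw [Matrix.diag_apply]
      by_contra hne
      have := (hB i i).1 hne
      rw [hz i] at this
      exact absurd this (by decide)
    rw [ht0] at ht
    exact neg_eq_zero.1 ht.symm
  -- one loop
  have caseO : One Q → (∀ B : Matrix ι ι F, Exact Q B → B.charpoly ≠ X ^ (Fintype.card ι)) := by
    rintro ⟨i, hi, hj⟩ B hB h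
    have ht := Matrix.trace_eq_neg_charpoly_coeff B
    rw [h, coeff_X_pow, if_neg (by omega), neg_zero] at ht
    have ht1 : B.trace = B i i := by
      unfold Matrix.trace
      rw [Finset.sum_eq_single i]
      · rfl
      · intro j _ hne
        rw [Matrix.diag_apply]
        by_contra h0
        have := (hB j j).1 h0
        rw [hj j hne] at this
        exact absurd this (by decide)
      · intro h0
        exact absurd (Finset.mem_univ i) h0
    rw [ht1] at ht
    exact (hB i i).2 hi ht
  have hcard : Fintype.card ι = 1 ∨ Fintype.card ι = 2 ∨ Fintype.card ι = 3 := by omega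
  rcases hcard with hn | hn | hn
  · have e := Fintype.equivFinOfCardEq hn
    rcases comb1 _ (cut_transfer Q e hc) (by rw [card_transfer]; omega) with h | h
    · exact Or.inl (caseZ (zero_transfer Q e h))
    · exact Or.inr (caseO (one_transfer Q e h))
  · have e := Fintype.equivFinOfCardEq hn
    rcases comb2 _ (cut_transfer Q e hc) (by rw [card_transfer]; omega) with h | h
    · exact Or.inl (caseZ (zero_transfer Q e h))
    · exact Or.inr (caseO (one_transfer Q e h))
  · have e := Fintype.equivFinOfCardEq hn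
    rcases comb3 _ (cut_transfer Q e hc) (by rw [card_transfer]; omega) with h | h | h
    · exact Or.inl (caseZ (zero_transfer Q e h))
    · exact Or.inr (caseO (one_transfer Q e h))
    · refine Or.inr fun B hB hX => ?_
      refine two_case _ h (Matrix.reindex e e B) ?_ ?_
      · intro i j
        exact hB (e.symm i) (e.symm j)
      · rw [Matrix.charpoly_reindex, hX, hn]

end Pool.Agent.H89.SP.L.SMALL
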