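import Pool.Agent.H89.SP.LB

set_option autoImplicit false

namespace Pool.Agent.H89.SP.L.SUM

open Pool.Agent.H89.SP

theorem main : LB.S_SUM := by
  intro ι _ _ Q hQ
  by_contra hcon
  push Not at hcon
  classical
  let s : Setoid ι := ⟨fun i j => LB.Reach Q i j ∧ LB.Reach Q j i,
    fun i => ⟨Relation.ReflTransGen.refl, Relation.ReflTransGen.refl⟩,
    fun h => ⟨h.2, h.1⟩, fun h h' => ⟨h.1.trans h'.1, h'.2.trans h.2⟩⟩
  have hmem : ∀ (x : Quotient s) (i : ι), (Quotient.mk s i = x) ↔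
      (LB.Reach Q x.out i ∧ LB.Reach Q i x.out) := by
    intro x i
    rw [Quotient.mk_eq_iff_out]
    exact ⟨fun h => ⟨h.2, h.1⟩, fun h => ⟨h.2, h.1⟩⟩
  have h1 : Fintype.card ι ≤ ∑ x : Quotient s, Fintype.card (LB.Comp Q x.out) := by
    rw [← Finset.card_univ, Finset.card_eq_sum_card_fiberwise (f := Quotient.mk s)
      (t := Finset.univ) (fun x _ => Finset.mem_coe.2 (Finset.mem_univ _))]
    refine Finset.sum_le_sum fun x _ => ?_
    rw [← Finset.card_univ (α := LB.Comp Q x.out)]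
    refine (Finset.card_le_card (t := Finset.univ.image fun i : LB.Comp Q x.out => i.1) ?_).trans
      Finset.card_image_le
    intro i hi
    rw [Finset.mem_filter] at hi
    rw [Finset.mem_image]
    exact ⟨⟨i, (hmem x i).1 hi.2⟩, Finset.mem_univ _, rfl⟩
  have h2 : ∑ x : Quotient s, LB.arcs (LB.compQ Q x.out) ≤ LB.arcs Q := by
    unfold LB.arcs
    rw [Finset.card_eq_sum_card_fiberwise (s := Finset.univ.filter
        (fun ij : ι × ι => Q ij.1 ij.2 = true)) (f := fun ij : ι × ι => Quotient.mk s ij.1)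
      (t := Finset.univ) (fun x _ => Finset.mem_coe.2 (Finset.mem_univ _))]
    refine Finset.sum_le_sum fun x _ => ?_
    refine Finset.card_le_card_of_injOn (fun p : LB.Comp Q x.out × LB.Comp Q x.out =>
      (p.1.1, p.2.1)) ?_ ?_
    · intro p hp
      have hp' := (Finset.mem_filter.1 (Finset.mem_coe.1 hp)).2
      refine Finset.mem_coe.2 (Finset.mem_filter.2 ⟨Finset.mem_filter.2 ⟨Finset.mem_univ _, hp'⟩, ?_⟩)
      exact (hmem x p.1.1).2 p.1.2
    · intro p _ p' _ h
      have h3 : p.1.1 = p'.1.1 := congrArg Prod.fst h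
      have h4 : p.2.1 = p'.2.1 := congrArg Prod.snd h
      exact Prod.ext (Subtype.ext h3) (Subtype.ext h4)
  have h3 : 7 * ∑ x : Quotient s, Fintype.card (LB.Comp Q x.out) ≤
      4 * ∑ x : Quotient s, LB.arcs (LB.compQ Q x.out) := by
    rw [Finset.mul_sum, Finset.mul_sum]
    exact Finset.sum_le_sum fun x _ => hcon x.out
  omega

end Pool.Agent.H89.SP.L.SUM
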