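import Pool.Agent.H89.SP.LB

set_option autoImplicit false

namespace Pool.Agent.H89.SP.L.TREE

open Polynomial Matrix
open Pool.Agent.H89.SP.LB

/-- a path of length `n` from `v` to `r` -/
def Pa {ι : Type} (Q : ι → ι → Bool) (r : ι) : ℕ → ι → Prop
  | 0, v => v = r
  | n + 1, v => ∃ w, Q v w = true ∧ Pa Q r n w

lemma exists_pa {ι : Type} (Q : ι → ι → Bool) (r v : ι) (h : Reach Q v r) : ∃ n, Pa Q r n v := by
  unfold Reach at h
  induction h using Relation.ReflTransGen.head_induction_on with
  | refl => exact ⟨0, rfl⟩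
  | head h1 _ ih =>
    obtain ⟨n, hn⟩ := ih
    exact ⟨n + 1, _, h1, hn⟩

theorem main : LB.S_TREE := by
  classical
  intro F ι _ _ _ Q r hQ
  have hex : ∀ v, ∃ n, Pa Q r n v := fun v => exists_pa Q r v (hQ v r)
  set dist : ι → ℕ := fun v => Nat.find (hex v) with hdist
  have hpar : ∀ v, v ≠ r → ∃ w, Q v w = true ∧ dist w < dist v := by
    intro v hv
    have h1 := Nat.find_spec (hex v)
    have h2 : Nat.find (hex v) ≠ 0 := by
      intro h0
      rw [h0] at h1
      exact hv h1
    obtain ⟨k, hk⟩ := Nat.exists_eq_succ_of_ne_zero h2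
    rw [hk] at h1
    obtain ⟨w, hw1, hw2⟩ := h1
    refine ⟨w, hw1, ?_⟩
    have h3 : dist w ≤ k := Nat.find_min' (hex w) hw2
    have h4 : dist v = k + 1 := hk
    omega
  choose! par hp1 hp2 using hpar
  refine ⟨par, hp1, fun B hB => ?_⟩
  have wf : WellFounded (fun a b : ι => dist a < dist b) := (measure dist).wf
  set d : ι → F := wf.fix (fun v rec => if h : v = r then 1 else rec (par v) (hp2 v h) / B v (par v))
    with hd
  have hd' : ∀ v, d v = if v = r then 1 else d (par v) / B v (par v) := by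
    intro v
    rw [hd, wf.fix_eq]
    by_cases h : v = r
    · rw [dif_pos h, if_pos h]
    · rw [dif_neg h, if_neg h]
  have hBp : ∀ v, v ≠ r → B v (par v) ≠ 0 := fun v hv => (hB v (par v)).2 (hp1 v hv)
  have hd0 : ∀ v, d v ≠ 0 := by
    intro v
    induction v using wf.induction with
    | _ v ih =>
      rw [hd']
      split_ifs with h
      · exact one_ne_zero
      · exact div_ne_zero (ih _ (hp2 v h)) (hBp v h)
  let U : (Matrix ι ι F)ˣ := ⟨diagonal d, diagonal fun i => (d i)⁻¹,
    by rw [diagonal_mul_diagonal, ← diagonal_one]; congr 1; funext i; exact mul_inv_cancel₀ (hd0 i),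
    by rw [diagonal_mul_diagonal, ← diagonal_one]; congr 1; funext i; exact inv_mul_cancel₀ (hd0 i)⟩
  have hU : ∀ i j, ((U.val * B * U⁻¹.val : Matrix ι ι F)) i j = d i * B i j * (d j)⁻¹ := by
    intro i j
    show (diagonal d * B * diagonal fun i => (d i)⁻¹) i j = _
    rw [mul_diagonal, diagonal_mul]
  refine ⟨U.val * B * U⁻¹.val, ?_, ?_, ?_⟩
  · intro i j
    rw [hU, ← hB i j]
    constructor
    · intro h h0
      apply h
      rw [h0, mul_zero, zero_mul]
    · intro h
      exact mul_ne_zero (mul_ne_zero (hd0 i) h) (inv_ne_zero (hd0 j))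
  · rw [Matrix.coe_units_inv]
    exact Matrix.charpoly_units_conj U B
  · intro v hv
    rw [hU, hd' v, if_neg hv]
    have h1 := hBp v hv
    have h2 := hd0 (par v)
    field_simp

end Pool.Agent.H89.SP.L.TREE
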